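import Pool.Agent.Q46.ND.StmE

/-! Lemma job 32814 (LN-EK, project LN of helper46), by helper177. -/

set_option autoImplicit false

namespace Pool.Agent.Q177.ND

open Pool.Agent.Q46.ND

theorem t_EK' : P_EK := by
  intro T k _ _ s χ B hdeg hlead hroots
  obtain ⟨S, hS, hz⟩ := hroots
  rcases Nat.eq_zero_or_pos B with rfl | hB
  · refine ⟨χ.coeff 0, hlead, ?_⟩
    have h0 : χ = Polynomial.C (χ.coeff 0) := Polynomial.eq_C_of_natDegree_le_zero hdeg
    rw [← h0]
    exact Ideal.subset_span (by simp)
  · have h1 : (Polynomial.derivative χ).natDegree ≤ B - 1 :=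
      (Polynomial.natDegree_derivative_le χ).trans (by omega)
    refine ⟨Polynomial.resultant χ (Polynomial.derivative χ) B (B - 1), ?_, ?_⟩
    · rw [← Polynomial.resultant_map_map, ← Polynomial.derivative_map]
      have hc : (χ.map s).coeff B ≠ 0 := by rwa [Polynomial.coeff_map]
      have hf : (χ.map s).natDegree = B := by
        apply le_antisymm
        · exact Polynomial.natDegree_map_le.trans hdeg
        · exact Polynomial.le_natDegree_of_ne_zero hc
      have h1' : (Polynomial.derivative (χ.map s)).natDegree ≤ B - 1 :=
        (Polynomial.natDegree_derivative_le _).trans (by omega)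
      have hne : χ.map s ≠ 0 := by
        intro h
        rw [h] at hc
        simp at hc
      generalize χ.map s = f at hz hc hf h1' hne
      have hle : S.val ≤ f.roots := by
        rw [Multiset.le_iff_subset S.nodup]
        intro z hzS
        rw [Polynomial.mem_roots hne]
        exact hz z hzS
      have heq : S.val = f.roots := by
        apply Multiset.eq_of_le_of_card_le hle
        have := Polynomial.card_roots' f
        rw [Finset.card_val, hS, ← hf]
        exact this
      have hprod := Polynomial.C_leadingCoeff_mul_prod_multiset_X_sub_C (p := f)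
        (by rw [← heq, hf, Finset.card_val, hS])
      have hsep : f.Separable := by
        rw [← hprod, ← heq]
        apply Polynomial.Separable.unit_mul
        · exact Polynomial.isUnit_C.2 (isUnit_iff_ne_zero.2 (Polynomial.leadingCoeff_ne_zero.2 hne))
        · exact Polynomial.separable_prod_X_sub_C_iff'.2 (fun x _ y _ h => h)
      have hr := Polynomial.resultant_ne_zero f (Polynomial.derivative f) hsep
      obtain ⟨j, hj⟩ := Nat.exists_eq_add_of_le h1'
      rw [hj, Polynomial.resultant_add_right_deg _ _ _ _ _ le_rfl]
      rw [hf] at hr
      exact mul_ne_zero (pow_ne_zero _ hc) hr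
    · obtain ⟨p, q, -, -, h⟩ := Polynomial.exists_mul_add_mul_eq_C_resultant (m := B) (n := B - 1)
        χ (Polynomial.derivative χ) hdeg h1 (Or.inl hB.ne')
      rw [← h, Ideal.mem_span_pair]
      exact ⟨p, q, by ring⟩

/-- The same with the hypothesis `P_EA`, which is not needed. -/
theorem t_EK (_ : P_EA) : P_EK := t_EK'

end Pool.Agent.Q177.ND
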